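import Pool.Agent.Helper81.Tok2.Goals

/-!
# Token machines whose silent steps are free: the evaluation of the polynomials
-/

namespace Pool.Agent.Helper13.Tok2

open Pool.Agent.Helper65.LinSpace Pool.Agent.Helper28.Ram Finset Pool.Agent.Helper81.Tok2
open Pool.Agent.Helper28.Ram.Mach (sgz)
open Pool.Agent.Helper81.Tok2 (Mach)
open Pool.Agent.Helper81.Tok2.Mach (addR scaR)

section

variable {m : Pool.Agent.Helper81.Tok2.Mach} {p : ℕ}

/-- The registers of `s'` are `R`, and above the level `l` the state `s'` is the same as `s`. -/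
structure Up (m : Pool.Agent.Helper81.Tok2.Mach) (l : ℕ) (s : Pool.Agent.Helper81.Tok2.Mach.St p)
    (R : ℕ → ZMod p) (s' : Pool.Agent.Helper81.Tok2.Mach.St p) : Prop where
  hR : s'.R = R
  lev : ∀ k, l + 1 ≤ k → s'.md k = s.md k ∧ s'.nd k = s.nd k ∧ s'.sg k = s.sg k
  rest : ∀ k, l + 1 ≤ k * (m.G + 2) → s'.qa k = s.qa k ∧ s'.ac k = s.ac k ∧ s'.au k = s.au k ∧
    s'.sa k = s.sa k ∧ s'.sl k = s.sl k

theorem Up.refl (l : ℕ) (s : Pool.Agent.Helper81.Tok2.Mach.St p) : Up m l s s.R s :=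
  ⟨rfl, fun _ _ => ⟨rfl, rfl, rfl⟩, fun _ _ => ⟨rfl, rfl, rfl, rfl, rfl⟩⟩

theorem Up.call {l : ℕ} {s : Pool.Agent.Helper81.Tok2.Mach.St p} {R : ℕ → ZMod p}
    {s' : Pool.Agent.Helper81.Tok2.Mach.St p}
    (h : Up m l s R s') (c i g : ℕ) : Up m l s R (s'.call l c i g) := by
  refine ⟨h.hR, fun k hk => ?_, h.rest⟩
  have hne : k ≠ l := by omega
  simp only [Pool.Agent.Helper81.Tok2.Mach.St.call, Function.update_of_ne hne]
  exact h.lev k hk

theorem Up.set {l : ℕ} {s : Pool.Agent.Helper81.Tok2.Mach.St p} {R : ℕ → ZMod p}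
    {s' : Pool.Agent.Helper81.Tok2.Mach.St p}
    (h : Up m l s R s') {k : ℕ} (hk : k * (m.G + 2) ≤ l) (R' : ℕ → ZMod p) (qa : ℕ → ℕ)
    (ac au : ℕ → ZMod p) (sa sl : ℕ → ℕ → ZMod p)
    (hq : ∀ k', k' ≠ k → qa k' = s'.qa k' ∧ ac k' = s'.ac k' ∧
      au k' = s'.au k' ∧ sa k' = s'.sa k' ∧ sl k' = s'.sl k') :
    Up m l s R' ({ s' with R := R', qa := qa, ac := ac, au := au, sa := sa, sl := sl } :
      Pool.Agent.Helper81.Tok2.Mach.St p) := by
  refine ⟨rfl, h.lev, fun k' hk' => ?_⟩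
  have hne : k' ≠ k := by
    rintro rfl
    omega
  obtain ⟨h1, h2, h3, h4, h5⟩ := hq k' hne
  obtain ⟨g1, g2, g3, g4, g5⟩ := h.rest k' hk'
  exact ⟨h1.trans g1, h2.trans g2, h3.trans g3, h4.trans g4, h5.trans g5⟩

theorem ideal_idle {l : ℕ} {s : Pool.Agent.Helper81.Tok2.Mach.St p} (h : s.md l = 0) :
    m.ideal l s = s := by
  cases l with
  | zero =>
    show (if s.md 0 = 1 then _ else _) = _
    rw [if_neg (by omega)]
  | succ l =>
    show (if s.md (l + 1) = 2 ∧ _ then _ else if s.md (l + 1) = 1 ∧ _ then _ else _) = _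
    rw [if_neg (by omega), if_neg (by omega)]

theorem ideal_top {l : ℕ} (hl : l % (m.G + 2) = 0) {s : Pool.Agent.Helper81.Tok2.Mach.St p}
    (hmd : s.md l = 1) (hnd : s.nd l = m.G) :
    m.ideal l s = { s with
      R := addR (m.cl (l / (m.G + 2))) m.wc (fun o => sgz p (s.sg l) *
        m.T p (l / (m.G + 2)) (s.qa (l / (m.G + 2))) o) s.R } := by
  cases l with
  | zero =>
    show (if s.md 0 = 1 then _ else _) = _
    rw [if_pos hmd, Nat.zero_div]
  | succ l =>
    have h1 : l % (m.G + 2) = m.G + 1 ∧ (l + 1) / (m.G + 2) = l / (m.G + 2) + 1 := by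
      obtain ⟨c, hc⟩ := Nat.dvd_of_mod_eq_zero hl
      have hc0 : 0 < c := by
        rcases Nat.eq_zero_or_pos c with h | h
        · subst h
          simp at hc
        · exact h
      obtain ⟨c', rfl⟩ : ∃ c', c = c' + 1 := ⟨c - 1, by omega⟩
      have hl' : l = (m.G + 2) * c' + (m.G + 1) := by
        have : (m.G + 2) * (c' + 1) = (m.G + 2) * c' + (m.G + 2) := by ring
        omega
      constructor
      · rw [hl', Nat.mul_add_mod, Nat.mod_eq_of_lt (by omega)]
      · rw [hc, Nat.mul_div_cancel_left _ (by omega), hl', Nat.mul_add_div (by omega),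
          Nat.div_eq_of_lt (by omega : m.G + 1 < m.G + 2)]
    show (if s.md (l + 1) = 2 ∧ _ then _ else if s.md (l + 1) = 1 ∧ _ then _ else _) = _
    rw [if_neg (by omega), if_pos ⟨hmd, by rw [hnd, h1.1]; omega⟩]
    rw [hnd, h1.2]
    unfold Pool.Agent.Helper81.Tok2.Mach.lo Pool.Agent.Helper81.Tok2.Mach.ln
      Pool.Agent.Helper81.Tok2.Mach.V Pool.Agent.Helper81.Tok2.Mach.vn
      Pool.Agent.Helper81.Tok2.Mach.T
    simp only [lt_irrefl, if_false]

/-! ### Registers -/

theorem addR_of_not {l n : ℕ} (c : ℕ → ZMod p) (R : ℕ → ZMod p) {j : ℕ}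
    (h : ¬ (l ≤ j ∧ j < l + n)) : addR l n c R j = R j := by
  unfold addR
  rw [if_neg h]

theorem addR_zero (l n : ℕ) (R : ℕ → ZMod p) :
    addR l n (fun _ => 0) R = R := by
  funext j
  simp [addR]

theorem addR_add (l n : ℕ) (c c' : ℕ → ZMod p) (R : ℕ → ZMod p) :
    addR l n c' (addR l n c R) =
      addR l n (fun o => c o + c' o) R := by
  funext j
  simp only [addR]
  split_ifs
  · ring
  · rfl

theorem addR_congr {l n : ℕ} {c c' : ℕ → ZMod p} (h : ∀ o < n, c o = c' o) (R : ℕ → ZMod p) :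
    addR l n c R = addR l n c' R := by
  funext j
  simp only [addR]
  split_ifs with hj
  · rw [h _ (by omega)]
  · rfl

theorem net1 [Fact p.Prime] {a n : ℕ} {c : ZMod p} (hc : c ≠ 0) (T R : ℕ → ZMod p) :
    scaR a n c⁻¹ (addR a n
      (fun o => -1 * T o) (addR a n (fun o => 1 * T o)
        (scaR a n c R))) = R := by
  funext j
  simp only [addR, scaR]
  split_ifs
  · field_simp
    ring
  · rfl

theorem net2 [Fact p.Prime] {a n a' n' : ℕ} {c : ZMod p} (hc : c ≠ 0) (T f R : ℕ → ZMod p)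
    (hd : ∀ j, a ≤ j ∧ j < a + n → ¬ (a' ≤ j ∧ j < a' + n')) :
    scaR a n c⁻¹ (addR a n
      (fun o => -1 * T o) (addR a' n' f
        (addR a n (fun o => 1 * T o)
          (scaR a n c R)))) =
      addR a' n' f R := by
  funext j
  simp only [addR, scaR]
  by_cases h1 : a ≤ j ∧ j < a + n
  · rw [if_pos h1, if_pos h1, if_neg (hd j h1), if_pos h1, if_pos h1, if_neg (hd j h1)]
    field_simp
    ring
  · rw [if_neg h1, if_neg h1, if_neg h1, if_neg h1]

theorem cl_ge (k : ℕ) : m.G * m.wn ≤ m.cl k := by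
  unfold Pool.Agent.Helper81.Tok2.Mach.cl
  omega

theorem cl_disj (k j : ℕ) (h : m.cl k ≤ j ∧ j < m.cl k + m.wc) :
    ¬ (m.cl (k + 1) ≤ j ∧ j < m.cl (k + 1) + m.wc) := by
  unfold Pool.Agent.Helper81.Tok2.Mach.cl at *
  rcases Nat.mod_two_eq_zero_or_one k with h0 | h0
  · have h1 : (k + 1) % 2 = 1 := by omega
    rw [h0] at h
    rw [h1]
    omega
  · have h1 : (k + 1) % 2 = 0 := by omega
    rw [h0] at h
    rw [h1]
    omega

/-- The variables after the content is loaded. -/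
theorem vars_load {i : ℕ} (hi : i ≤ m.G) (k : ℕ) (c : ZMod p) (T R : ℕ → ZMod p) {j : ℕ}
    (hj : j < m.nv i) :
    m.vars p i (addR (m.cl k) m.wc (fun o => 1 * T o)
      (scaR (m.cl k) m.wc c R))
      (fun o => addR (m.cl k) m.wc (fun o => 1 * T o)
      (scaR (m.cl k) m.wc c R) (m.cl k + o)) j =
    m.vars p i R (fun o => c * R (m.cl k + o) + T o) j := by
  unfold Pool.Agent.Helper81.Tok2.Mach.vars
  split_ifs with h
  · have h1 := cl_ge (m := m) k
    have h2 : i * m.wn ≤ m.G * m.wn := Nat.mul_le_mul_right _ hi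
    simp only [addR, scaR]
    rw [if_neg (by omega), if_neg (by omega)]
  · unfold Pool.Agent.Helper81.Tok2.Mach.nv at hj
    simp only [addR, scaR]
    rw [if_pos (by omega), if_pos (by omega)]
    rw [show m.cl k + (j - i * m.wn) - m.cl k = j - i * m.wn by omega]
    ring

/-- One operation and the procedure of the level below. -/
def stp (m : Pool.Agent.Helper81.Tok2.Mach) (l : ℕ) :
    ℕ → Pool.Agent.Helper81.Tok2.Mach.St p → Pool.Agent.Helper81.Tok2.Mach.St p :=
  fun j s => m.ideal l (m.op l j s)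

theorem cast_ne [Fact p.Prime] {w : ℕ} (hw : w < p - 1) : ((w + 1 : ℕ) : ZMod p) ≠ 0 := by
  intro h
  rw [ZMod.natCast_eq_zero_iff] at h
  have := Nat.le_of_dvd (by omega) h
  omega

/-- The summands. -/
def fY (m : Pool.Agent.Helper81.Tok2.Mach) (p k i y v : ℕ) (R : ℕ → ZMod p) (w : ℕ) : ZMod p :=
  fhat p (m.nv i) (m.bf i y v) 0 (m.vars p i R fun o => ((w + 1 : ℕ) : ZMod p) * R (m.cl k + o) +
    m.T p k (m.qy y v) o)

/-- Three operations with the calls after them. -/
theorem triple [Fact p.Prime] {l k : ℕ} (hl : l % (m.G + 2) = 0) (hk : l / (m.G + 2) = k)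
    {s : Pool.Agent.Helper81.Tok2.Mach.St p}
    (hmd : s.md (l + 1) = 2) (hnd : s.nd (l + 1) < m.G) {R : ℕ → ZMod p}
    {s' : Pool.Agent.Helper81.Tok2.Mach.St p}
    (h : Up m l s R s') {y v w : ℕ} (hv : v < m.nl) (hw : w < p - 1) {s'' : _}
    (hs : s'' = stp m l (y * m.ny p + (v * (3 * (p - 1)) + (3 * w + 2)))
      (stp m l (y * m.ny p + (v * (3 * (p - 1)) + (3 * w + 1)))
        (stp m l (y * m.ny p + (v * (3 * (p - 1)) + 3 * w)) s'))) :
    Up m l s R s'' ∧
    s''.au k = (if w = 0 then 0 else s'.au k) + fY m p k (s.nd (l + 1)) y v R w ∧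
    (s''.ac k, s''.sa k, s''.sl k) = if w = p - 2 then m.fstep p (v % (m.sv + 1)) (-s''.au k)
        ((if v = 0 ∧ w = 0 then 1 else s'.ac k), s'.sa k, s'.sl k)
      else ((if v = 0 ∧ w = 0 then 1 else s'.ac k), s'.sa k, s'.sl k) := by
  have hkl : k * (m.G + 2) = l := by
    rw [← hk]
    exact Nat.div_mul_cancel (Nat.dvd_of_mod_eq_zero hl)
  have hk1 : l + 1 ≤ (k + 1) * (m.G + 2) := by
    have : (k + 1) * (m.G + 2) = k * (m.G + 2) + (m.G + 2) := by ring
    omega
  have hp0 : 0 < p - 1 := by omega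
  have hrw : v * (p - 1) + w < m.nl * (p - 1) := by
    have : (v + 1) * (p - 1) ≤ m.nl * (p - 1) := Nat.mul_le_mul_right _ hv
    have h2 : (v + 1) * (p - 1) = v * (p - 1) + (p - 1) := by ring
    omega
  have hny : m.ny p = 3 * (m.nl * (p - 1)) + 1 := rfl
  have hr3 : v * (3 * (p - 1)) = 3 * (v * (p - 1)) := by ring
  set t := v * (p - 1) + w with ht
  have ht1 : t % (p - 1) = w := by rw [ht]; exact mod_eq_block hw
  have ht2 : t / (p - 1) = v := by rw [ht]; exact div_eq_block hw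
  have ht0 : (3 * t = 0) ↔ (v = 0 ∧ w = 0) := by
    constructor
    · intro h0
      have h1 : t = 0 := by omega
      constructor
      · rw [← ht2, h1, Nat.zero_div]
      · rw [← ht1, h1, Nat.zero_mod]
    · rintro ⟨rfl, rfl⟩
      simp [ht]
  have i0 : y * m.ny p + (v * (3 * (p - 1)) + 3 * w) = y * m.ny p + 3 * t := by
    rw [hr3, ht]; ring
  have i1 : y * m.ny p + (v * (3 * (p - 1)) + (3 * w + 1)) = y * m.ny p + (3 * t + 1) := by
    rw [hr3, ht]; ring
  have i2 : y * m.ny p + (v * (3 * (p - 1)) + (3 * w + 2)) = y * m.ny p + (3 * t + 2) := by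
    rw [hr3, ht]; ring
  rw [i0, i1, i2] at hs
  set i := s.nd (l + 1) with hi
  set x := m.qy y v with hx
  set c : ZMod p := ((w + 1 : ℕ) : ZMod p) with hc
  set ac0 : ZMod p := if v = 0 ∧ w = 0 then 1 else s'.ac k with hac0
  set au0 : ZMod p := if w = 0 then 0 else s'.au k with hau0
  -- the first operation
  set s1 : Pool.Agent.Helper81.Tok2.Mach.St p := ({ s' with
      R := scaR (m.cl k) m.wc c R
      qa := Function.update s'.qa k x
      ac := Function.update s'.ac k ac0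
      au := Function.update s'.au k au0
      sa := s'.sa
      sl := s'.sl } :
    Pool.Agent.Helper81.Tok2.Mach.St p).call l 1 m.G 0 with hs1
  have e1 : m.op l (y * m.ny p + 3 * t) s' = s1 := by
    unfold Pool.Agent.Helper81.Tok2.Mach.op
    rw [if_pos hl, hk]
    unfold Pool.Agent.Helper81.Tok2.Mach.opE
    rw [if_pos ⟨by rw [(h.lev _ le_rfl).1]; exact hmd, by rw [(h.lev _ le_rfl).2.1]; exact hnd⟩]
    rw [mod_eq_block (by omega : 3 * t < m.ny p), div_eq_block (by omega : 3 * t < m.ny p)]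
    unfold Pool.Agent.Helper81.Tok2.Mach.opY
    rw [if_neg (by omega), if_pos (by omega), show 3 * t / 3 = t by omega, ht1, ht2, h.hR]
    rw [hs1, hac0, hau0]
    simp only [ht0]
    rfl
  have u1 : Up m l s (scaR (m.cl k) m.wc c R) s1 := by
    refine (h.set (by omega : k * (m.G + 2) ≤ l) _ _ _ _ _ _ ?_).call _ _ _
    intro k' hk'
    exact ⟨Function.update_of_ne hk' _ _, Function.update_of_ne hk' _ _,
      Function.update_of_ne hk' _ _, rfl, rfl⟩
  have q1 : s1.qa k = x := by simp [hs1, Pool.Agent.Helper81.Tok2.Mach.St.call]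
  have md1 : s1.md l = 1 := by simp [hs1, Pool.Agent.Helper81.Tok2.Mach.St.call]
  have nd1 : s1.nd l = m.G := by simp [hs1, Pool.Agent.Helper81.Tok2.Mach.St.call]
  have sg1 : s1.sg l = 0 := by simp [hs1, Pool.Agent.Helper81.Tok2.Mach.St.call]
  have ac1 : s1.ac k = ac0 := by simp [hs1, Pool.Agent.Helper81.Tok2.Mach.St.call]
  have au1 : s1.au k = au0 := by simp [hs1, Pool.Agent.Helper81.Tok2.Mach.St.call]
  set R1 := addR (m.cl k) m.wc (fun o => 1 * m.T p k x o)
    (scaR (m.cl k) m.wc c R) with hR1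
  set s2 : Pool.Agent.Helper81.Tok2.Mach.St p := { s1 with R := R1 } with hs2
  have e2 : stp m l (y * m.ny p + 3 * t) s' = s2 := by
    unfold stp
    rw [e1, ideal_top hl md1 nd1, hk, q1, sg1, u1.hR, hs2, hR1]
    rfl
  have u2 : Up m l s R1 s2 := ⟨rfl, u1.lev, u1.rest⟩
  -- the second operation
  set F := fY m p k i y v R w with hF
  set s3 : Pool.Agent.Helper81.Tok2.Mach.St p := ({ s2 with
      R := R1
      qa := s2.qa
      ac := s2.ac
      au := Function.update s2.au k (s2.au k + F)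
      sa := s2.sa
      sl := s2.sl } :
      Pool.Agent.Helper81.Tok2.Mach.St p).call l 1 m.G 1 with hs3
  have e3 : m.op l (y * m.ny p + (3 * t + 1)) s2 = s3 := by
    unfold Pool.Agent.Helper81.Tok2.Mach.op
    rw [if_pos hl, hk]
    unfold Pool.Agent.Helper81.Tok2.Mach.opE
    rw [if_pos ⟨by rw [(u2.lev _ le_rfl).1]; exact hmd, by rw [(u2.lev _ le_rfl).2.1]; exact hnd⟩]
    rw [mod_eq_block (by omega : 3 * t + 1 < m.ny p), div_eq_block (by omega : 3 * t + 1 < m.ny p)]
    unfold Pool.Agent.Helper81.Tok2.Mach.opY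
    rw [if_neg (by omega), if_neg (by omega), if_pos (by omega),
      show (3 * t + 1) / 3 = t by omega, ht2, (u2.lev _ le_rfl).2.1, ← hi, u2.hR]
    have hX : fhat p (m.nv i) (m.bf i y v) 0 (m.vars p i R1 fun o => R1 (m.cl k + o)) = F := by
      rw [hF]
      unfold fY
      apply fhat_congr
      intro j hj
      rw [hR1]
      exact vars_load (by omega) k c _ R hj
    rw [hX, hs3]
  have u3 : Up m l s R1 s3 := by
    refine (u2.set (by omega : k * (m.G + 2) ≤ l) _ _ _ _ _ _ ?_).call _ _ _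
    intro k' hk'
    exact ⟨rfl, rfl, Function.update_of_ne hk' _ _, rfl, rfl⟩
  have q3 : s3.qa k = x := q1
  have md3 : s3.md l = 1 := by simp [hs3, Pool.Agent.Helper81.Tok2.Mach.St.call]
  have nd3 : s3.nd l = m.G := by simp [hs3, Pool.Agent.Helper81.Tok2.Mach.St.call]
  have sg3 : s3.sg l = 1 := by simp [hs3, Pool.Agent.Helper81.Tok2.Mach.St.call]
  have ac3 : s3.ac k = ac0 := ac1
  have au3 : s3.au k = au0 + F := by
    simp only [hs3, Pool.Agent.Helper81.Tok2.Mach.St.call, Function.update_self]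
    rw [show s2.au k = s1.au k from rfl, au1]
  set R2 := addR (m.cl k) m.wc (fun o => -1 * m.T p k x o) R1
    with hR2
  set s4 : Pool.Agent.Helper81.Tok2.Mach.St p := { s3 with R := R2 } with hs4
  have e4 : stp m l (y * m.ny p + (3 * t + 1)) s2 = s4 := by
    unfold stp
    rw [e3, ideal_top hl md3 nd3, hk, q3, sg3, u3.hR, hs4, hR2]
    rfl
  have u4 : Up m l s R2 s4 := ⟨rfl, u3.lev, u3.rest⟩
  -- the third operation
  have hRR : scaR (m.cl k) m.wc c⁻¹ R2 = R := by
    rw [hR2, hR1]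
    exact net1 (cast_ne hw) _ R
  by_cases hwp : w = p - 2
  · set s5 : Pool.Agent.Helper81.Tok2.Mach.St p := ({ s4 with
        R := R
        qa := s4.qa
        ac := Function.update s4.ac k (m.nac p (v % (m.sv + 1)) (-(au0 + F)) (s4.sa k) (s4.sl k) ac0)
        au := s4.au
        sa := Function.update s4.sa k (m.nsa p (v % (m.sv + 1)) (-(au0 + F)) (s4.sa k) (s4.sl k))
        sl := Function.update s4.sl k (m.nsl p (v % (m.sv + 1)) (-(au0 + F)) (s4.sa k) (s4.sl k)) } :
        Pool.Agent.Helper81.Tok2.Mach.St p).call l 0 0 0 with hs5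
    have e5 : m.op l (y * m.ny p + (3 * t + 2)) s4 = s5 := by
      unfold Pool.Agent.Helper81.Tok2.Mach.op
      rw [if_pos hl, hk]
      unfold Pool.Agent.Helper81.Tok2.Mach.opE
      rw [if_pos ⟨by rw [(u4.lev _ le_rfl).1]; exact hmd,
        by rw [(u4.lev _ le_rfl).2.1]; exact hnd⟩]
      rw [mod_eq_block (by omega : 3 * t + 2 < m.ny p),
        div_eq_block (by omega : 3 * t + 2 < m.ny p)]
      unfold Pool.Agent.Helper81.Tok2.Mach.opY
      rw [if_neg (by omega), if_neg (by omega), if_neg (by omega),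
        show (3 * t + 2) / 3 = t by omega, ht1, ht2, if_pos hwp, u4.hR]
      unfold Pool.Agent.Helper81.Tok2.Mach.fold
      rw [hRR, show s4.au k = au0 + F from au3]
      show (({ s4 with
        R := R
        ac := Function.update s4.ac k
          (m.nac p (v % (m.sv + 1)) (-(au0 + F)) (s4.sa k) (s4.sl k) (s4.ac k))
        sa := _
        sl := _ } : Pool.Agent.Helper81.Tok2.Mach.St p).call l 0 0 0) = _
      rw [show s4.ac k = ac0 from ac3, hs5]
    have u5 : Up m l s R s5 := by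
      refine (u4.set (by omega : k * (m.G + 2) ≤ l) _ _ _ _ _ _ ?_).call _ _ _
      intro k' hk'
      exact ⟨rfl, Function.update_of_ne hk' _ _, rfl, Function.update_of_ne hk' _ _,
        Function.update_of_ne hk' _ _⟩
    have e6 : s'' = s5 := by
      rw [hs, e2, e4]
      unfold stp
      rw [e5, ideal_idle (by simp [hs5, Pool.Agent.Helper81.Tok2.Mach.St.call])]
    have au5 : s5.au k = au0 + F := au3
    have sa4 : s4.sa k = s'.sa k := rfl
    have sl4 : s4.sl k = s'.sl k := rfl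
    rw [e6]
    refine ⟨u5, au5, ?_⟩
    rw [au5, if_pos hwp]
    unfold Pool.Agent.Helper81.Tok2.Mach.fstep
    simp only [hs5, Pool.Agent.Helper81.Tok2.Mach.St.call, Function.update_self, sa4, sl4]
  · set s5 : Pool.Agent.Helper81.Tok2.Mach.St p := ({ s4 with
        R := R
        qa := s4.qa
        ac := s4.ac
        au := s4.au
        sa := s4.sa
        sl := s4.sl } :
        Pool.Agent.Helper81.Tok2.Mach.St p).call l 0 0 0 with hs5
    have e5 : m.op l (y * m.ny p + (3 * t + 2)) s4 = s5 := by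
      unfold Pool.Agent.Helper81.Tok2.Mach.op
      rw [if_pos hl, hk]
      unfold Pool.Agent.Helper81.Tok2.Mach.opE
      rw [if_pos ⟨by rw [(u4.lev _ le_rfl).1]; exact hmd,
        by rw [(u4.lev _ le_rfl).2.1]; exact hnd⟩]
      rw [mod_eq_block (by omega : 3 * t + 2 < m.ny p),
        div_eq_block (by omega : 3 * t + 2 < m.ny p)]
      unfold Pool.Agent.Helper81.Tok2.Mach.opY
      rw [if_neg (by omega), if_neg (by omega), if_neg (by omega),
        show (3 * t + 2) / 3 = t by omega, ht1, if_neg hwp, u4.hR, hRR, hs5]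
    have u5 : Up m l s R s5 := by
      refine (u4.set (by omega : k * (m.G + 2) ≤ l) _ _ _ _ _ _ ?_).call _ _ _
      intro k' hk'
      exact ⟨rfl, rfl, rfl, rfl, rfl⟩
    have e6 : s'' = s5 := by
      rw [hs, e2, e4]
      unfold stp
      rw [e5, ideal_idle (by simp [hs5, Pool.Agent.Helper81.Tok2.Mach.St.call])]
    have au5 : s5.au k = au0 + F := au3
    have ac5 : s5.ac k = ac0 := ac3
    have sa5 : s5.sa k = s'.sa k := rfl
    have sl5 : s5.sl k = s'.sl k := rfl
    rw [e6]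
    refine ⟨u5, au5, ?_⟩
    rw [if_neg hwp, ac5, sa5, sl5]

/-- The operations for one leaf. -/
theorem inner (hIN : INNER_stmt) [Fact p.Prime] {l k : ℕ} (hl : l % (m.G + 2) = 0)
    (hk : l / (m.G + 2) = k) {s : Pool.Agent.Helper81.Tok2.Mach.St p}
    (hmd : s.md (l + 1) = 2) (hnd : s.nd (l + 1) < m.G)
    (hN : m.nv (s.nd (l + 1)) < p - 1) {R : ℕ → ZMod p}
    {s' : Pool.Agent.Helper81.Tok2.Mach.St p}
    (h : Up m l s R s') {y v : ℕ} (hv : v < m.nl) {s'' : _}
    (hs : s'' = iter (fun j => stp m l (y * m.ny p + (v * (3 * (p - 1)) + j)))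
      (3 * (p - 1)) s') :
    Up m l s R s'' ∧
    (s''.ac k, s''.sa k, s''.sl k) =
      m.fstep p (v % (m.sv + 1)) (m.lv p k (s.nd (l + 1)) y R v)
        ((if v = 0 then 1 else s'.ac k), s'.sa k, s'.sl k) := by
  have hp2 : 2 ≤ p := (Fact.out : p.Prime).two_le
  set f := fun j => stp (p := p) m l (y * m.ny p + (v * (3 * (p - 1)) + j)) with hf
  set ac0 : ZMod p := if v = 0 then 1 else s'.ac k with hac0
  have key : ∀ w ≤ p - 1, Up m l s R (iter f (3 * w) s') ∧
      (0 < w → (iter f (3 * w) s').au k =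
        ∑ w' ∈ range w, fY m p k (s.nd (l + 1)) y v R w') ∧
      (((iter f (3 * w) s').ac k, (iter f (3 * w) s').sa k, (iter f (3 * w) s').sl k) =
        if w = p - 1 then
        m.fstep p (v % (m.sv + 1)) (-∑ w' ∈ range w, fY m p k (s.nd (l + 1)) y v R w')
          (ac0, s'.sa k, s'.sl k) else
        if w = 0 then (s'.ac k, s'.sa k, s'.sl k) else (ac0, s'.sa k, s'.sl k)) := by
    intro w
    induction w with
    | zero =>
      intro _
      refine ⟨h, fun h0 => absurd h0 (lt_irrefl _), ?_⟩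
      rw [if_neg (by omega), if_pos rfl]
      rfl
    | succ w ih =>
      intro hw
      obtain ⟨h1, h2, h3⟩ := ih (by omega)
      set s1 := iter f (3 * w) s' with hs1
      have e : iter f (3 * (w + 1)) s' = f (3 * w + 2) (f (3 * w + 1) (f (3 * w) s1)) := rfl
      obtain ⟨g1, g2, g3⟩ := triple hl hk hmd hnd h1 hv (by omega : w < p - 1) e
      have hau : (iter f (3 * (w + 1)) s').au k =
          ∑ w' ∈ range (w + 1), fY m p k (s.nd (l + 1)) y v R w' := by
        rw [g2, sum_range_succ]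
        congr 1
        by_cases h0 : w = 0
        · rw [if_pos h0, h0]
          simp
        · rw [if_neg h0, h2 (by omega)]
      refine ⟨g1, fun _ => hau, ?_⟩
      rw [g3, hau]
      have hw1 : w ≠ p - 1 := by omega
      rw [if_neg hw1] at h3
      have hac : ((if v = 0 ∧ w = 0 then (1 : ZMod p) else s1.ac k), s1.sa k, s1.sl k) =
          (ac0, s'.sa k, s'.sl k) := by
        by_cases h0 : w = 0
        · rw [if_pos h0] at h3
          simp only [Prod.mk.injEq] at h3
          rw [h3.1, h3.2.1, h3.2.2, hac0]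
          by_cases h00 : v = 0
          · rw [if_pos ⟨h00, h0⟩, if_pos h00]
          · rw [if_neg (by tauto), if_neg h00]
        · rw [if_neg h0] at h3
          simp only [Prod.mk.injEq] at h3
          rw [h3.1, h3.2.1, h3.2.2, if_neg (by tauto)]
      rw [hac]
      by_cases h0 : w = p - 2
      · rw [if_pos h0, if_pos (by omega)]
      · rw [if_neg h0, if_neg (by omega), if_neg (by omega)]
  obtain ⟨h1, -, h3⟩ := key (p - 1) le_rfl
  rw [hs]
  refine ⟨h1, ?_⟩
  rw [h3, if_pos rfl]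
  congr 1
  have := hIN m p (m.nv (s.nd (l + 1))) (s.nd (l + 1)) 0 (m.bf (s.nd (l + 1)) y v) R
    (fun o => R (m.cl k + o)) (m.T p k (m.qy y v)) hN
  unfold Pool.Agent.Helper81.Tok2.Mach.lv fY
  rw [this, neg_neg]

/-- The operations for all leaves. -/
theorem rnds (hIN : INNER_stmt) [Fact p.Prime] {l k : ℕ} (hl : l % (m.G + 2) = 0)
    (hk : l / (m.G + 2) = k) {s : Pool.Agent.Helper81.Tok2.Mach.St p}
    (hmd : s.md (l + 1) = 2) (hnd : s.nd (l + 1) < m.G)
    (hN : m.nv (s.nd (l + 1)) < p - 1) {R : ℕ → ZMod p}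
    {s' : Pool.Agent.Helper81.Tok2.Mach.St p}
    (h : Up m l s R s') (y : ℕ) : ∀ v ≤ m.nl, ∀ s'' : Pool.Agent.Helper81.Tok2.Mach.St p,
    s'' = iter (fun j => stp m l (y * m.ny p + j)) (v * (3 * (p - 1))) s' →
    Up m l s R s'' ∧
    (0 < v → (s''.ac k, s''.sa k, s''.sl k) =
      iter (fun v t => m.fstep p (v % (m.sv + 1)) (m.lv p k (s.nd (l + 1)) y R v) t) v
        (1, s'.sa k, s'.sl k)) ∧
    (v = 0 → s'' = s') := by
  intro v
  induction v with
  | zero =>
    intro _ s'' hs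
    rw [Nat.zero_mul] at hs
    have hs' : s'' = s' := hs
    rw [hs']
    exact ⟨h, fun h0 => absurd h0 (lt_irrefl _), fun _ => rfl⟩
  | succ v ih =>
    intro hv s'' hs
    obtain ⟨h1, h2, h3⟩ := ih (by omega) _ rfl
    rw [Nat.succ_mul, iter_add] at hs
    set s1 := iter (fun j => stp m l (y * m.ny p + j)) (v * (3 * (p - 1))) s' with hs1
    obtain ⟨g1, g2⟩ := inner hIN hl hk hmd hnd hN h1 (y := y) (v := v) (by omega) hs
    refine ⟨g1, fun _ => ?_, fun h0 => absurd h0 (by omega)⟩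
    rw [g2]
    show _ = m.fstep p (v % (m.sv + 1)) (m.lv p k (s.nd (l + 1)) y R v)
      (iter (fun v t => m.fstep p (v % (m.sv + 1)) (m.lv p k (s.nd (l + 1)) y R v) t) v
        (1, s'.sa k, s'.sl k))
    congr 1
    rcases Nat.eq_zero_or_pos v with h0 | h0
    · rw [if_pos h0, h3 h0, h0]
      rfl
    · rw [if_neg (by omega)]
      exact h2 h0

/-- The value which is subtracted in the round `y`. -/
noncomputable def val (m : Pool.Agent.Helper81.Tok2.Mach) (p k i : ℕ) (R : ℕ → ZMod p)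
    (y o : ℕ) : ZMod p :=
  (∏ r ∈ range m.b, m.fc p k i y r R) * bitZ p (y / 2 ^ m.σ) o

theorem vars_congr {i : ℕ} {R R' D : ℕ → ZMod p} (hX : ∀ j < i * m.wn, R j = R' j) (j : ℕ) :
    m.vars p i R D j = m.vars p i R' D j := by
  unfold Pool.Agent.Helper81.Tok2.Mach.vars
  split_ifs with h
  · exact hX j h
  · rfl

theorem F_congr {k i y r : ℕ} {R R' : ℕ → ZMod p} (hX : ∀ j < i * m.wn, R j = R' j) :
    ∀ u e f : ℕ, m.F p k i y r R u e f = m.F p k i y r R' u e f := by
  intro u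
  induction u with
  | zero =>
    intro e f
    unfold Pool.Agent.Helper81.Tok2.Mach.F
    exact fhat_congr p fun j _ => vars_congr hX j
  | succ u ih =>
    intro e f
    unfold Pool.Agent.Helper81.Tok2.Mach.F
    exact sum_congr rfl fun g _ => by rw [ih e g, ih g f]

theorem val_congr {k i : ℕ} {R R' : ℕ → ZMod p} (hX : ∀ j < i * m.wn, R j = R' j) (y o : ℕ) :
    val m p k i R y o = val m p k i R' y o := by
  unfold val
  congr 1
  apply prod_congr rfl
  intro r hr
  unfold Pool.Agent.Helper81.Tok2.Mach.fc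
  rw [F_congr hX]
  congr 1
  exact fhat_congr p fun j _ => vars_congr hX j

/-- A round. -/
theorem round (hIN : INNER_stmt) (hSAV : SAV_stmt) [Fact p.Prime] (hb : 0 < m.nl) {l k : ℕ}
    (hl : l % (m.G + 2) = 0)
    (hk : l / (m.G + 2) = k) {s : Pool.Agent.Helper81.Tok2.Mach.St p}
    (hmd : s.md (l + 1) = 2) (hnd : s.nd (l + 1) < m.G)
    (hN : m.nv (s.nd (l + 1)) < p - 1) {R : ℕ → ZMod p}
    {s' : Pool.Agent.Helper81.Tok2.Mach.St p}
    (h : Up m l s R s') (y : ℕ) :
    Up m l s (addR (m.lo k (s.nd (l + 1))) (m.ln (s.nd (l + 1)))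
      (fun o => -(sgz p (s.sg (l + 1)) * val m p k (s.nd (l + 1)) R y o)) R)
      (iter (fun j => stp m l (y * m.ny p + j)) (m.ny p) s') := by
  obtain ⟨h1, h2, -⟩ := rnds hIN hl hk hmd hnd hN h y m.nl le_rfl _ rfl
  specialize h2 hb
  have e3 : m.nl * (3 * (p - 1)) = 3 * (m.nl * (p - 1)) := by ring
  rw [e3] at h1 h2
  set s1 := iter (fun j => stp m l (y * m.ny p + j)) (3 * (m.nl * (p - 1))) s' with hs1
  replace h2 : s1.ac k = ∏ r ∈ range m.b, m.fc p k (s.nd (l + 1)) y r R := by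
    rw [← hSAV m p k (s.nd (l + 1)) y R (1, s'.sa k, s'.sl k) rfl, ← h2]
  have e0 : iter (fun j => stp m l (y * m.ny p + j)) (m.ny p) s' =
      stp m l (y * m.ny p + 3 * (m.nl * (p - 1))) s1 := rfl
  have hny : m.ny p = 3 * (m.nl * (p - 1)) + 1 := rfl
  rw [e0]
  have e1 : m.op l (y * m.ny p + 3 * (m.nl * (p - 1))) s1 =
      ({ s1 with
          R := addR (m.lo k (s.nd (l + 1))) (m.ln (s.nd (l + 1)))
            (fun o => -(sgz p (s.sg (l + 1)) * val m p k (s.nd (l + 1)) R y o)) R } :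
          Pool.Agent.Helper81.Tok2.Mach.St p).call l 0 0 0 := by
    unfold Pool.Agent.Helper81.Tok2.Mach.op
    rw [if_pos hl, hk]
    unfold Pool.Agent.Helper81.Tok2.Mach.opE
    rw [if_pos ⟨by rw [(h1.lev _ le_rfl).1]; exact hmd, by rw [(h1.lev _ le_rfl).2.1]; exact hnd⟩]
    rw [mod_eq_block (by omega : 3 * (m.nl * (p - 1)) < m.ny p),
      div_eq_block (by omega : 3 * (m.nl * (p - 1)) < m.ny p)]
    unfold Pool.Agent.Helper81.Tok2.Mach.opY
    rw [if_pos rfl, (h1.lev _ le_rfl).2.1, (h1.lev _ le_rfl).2.2, h2, h1.hR]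
    rfl
  unfold stp
  rw [e1, ideal_idle (by simp [Pool.Agent.Helper81.Tok2.Mach.St.call])]
  refine Up.call ?_ _ _ _
  exact ⟨rfl, h1.lev, h1.rest⟩

/-- All rounds. -/
theorem rounds (hIN : INNER_stmt) (hSAV : SAV_stmt) [Fact p.Prime] (hb : 0 < m.nl) {l k : ℕ}
    (hl : l % (m.G + 2) = 0)
    (hk : l / (m.G + 2) = k) {s : Pool.Agent.Helper81.Tok2.Mach.St p}
    (hmd : s.md (l + 1) = 2) (hnd : s.nd (l + 1) < m.G)
    (hN : m.nv (s.nd (l + 1)) < p - 1) : ∀ n : ℕ,
    Up m l s (addR (m.lo k (s.nd (l + 1))) (m.ln (s.nd (l + 1)))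
      (fun o => -(sgz p (s.sg (l + 1)) * ∑ y ∈ range n, val m p k (s.nd (l + 1)) s.R y o)) s.R)
      (iter (fun y => iter (fun j => stp m l (y * m.ny p + j)) (m.ny p)) n s) := by
  intro n
  induction n with
  | zero =>
    have e : addR (m.lo k (s.nd (l + 1))) (m.ln (s.nd (l + 1)))
        (fun o => -(sgz p (s.sg (l + 1)) *
        ∑ y ∈ range 0, val m p k (s.nd (l + 1)) s.R y o)) s.R = s.R := by
      rw [addR_congr (c' := fun _ => 0) (fun o _ => by simp)]
      exact addR_zero _ _ _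
    rw [e]
    exact Up.refl _ _
  | succ n ih =>
    have h1 := round hIN hSAV hb hl hk hmd hnd hN ih n
    rw [addR_add] at h1
    have e : ∀ R' : ℕ → ZMod p, (∀ j < s.nd (l + 1) * m.wn, R' j = s.R j) →
        (fun o => -(sgz p (s.sg (l + 1)) * ∑ y ∈ range n, val m p k (s.nd (l + 1)) s.R y o) +
        -(sgz p (s.sg (l + 1)) * val m p k (s.nd (l + 1)) R' n o)) =
        fun o => -(sgz p (s.sg (l + 1)) *
          ∑ y ∈ range (n + 1), val m p k (s.nd (l + 1)) s.R y o) := by
      intro R' hR'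
      funext o
      rw [val_congr hR' n o, sum_range_succ]
      ring
    rw [e _ ?_] at h1
    · exact h1
    · intro j hj
      apply addR_of_not
      unfold Pool.Agent.Helper81.Tok2.Mach.lo
      rw [if_pos hnd]
      omega

/-! ### The node `G` -/

/-- The summands. -/
def fZ (m : Pool.Agent.Helper81.Tok2.Mach) (p k x : ℕ) (R : ℕ → ZMod p) (w o : ℕ) : ZMod p :=
  fhat p (m.nv m.G) (m.top x) o (m.vars p m.G R fun o => ((w + 1 : ℕ) : ZMod p) *
    R (m.cl k + o) + m.T p k x o)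

theorem fZ_congr {k x : ℕ} {R R' : ℕ → ZMod p} (hX : ∀ j < m.G * m.wn, R j = R' j)
    (hY : ∀ o < m.wc, R (m.cl k + o) = R' (m.cl k + o)) (w o : ℕ) :
    fZ m p k x R w o = fZ m p k x R' w o := by
  unfold fZ
  apply fhat_congr
  intro j hj
  unfold Pool.Agent.Helper81.Tok2.Mach.nv at hj
  unfold Pool.Agent.Helper81.Tok2.Mach.vars
  split_ifs with h
  · exact hX j h
  · have h1 := hY (j - m.G * m.wn) (by omega)
    simp only [h1]

/-- Three operations with the calls after them. -/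
theorem tripleZ [Fact p.Prime] {l k : ℕ} (hl : l % (m.G + 2) = 0) (hk : l / (m.G + 2) = k)
    {s : Pool.Agent.Helper81.Tok2.Mach.St p}
    (hmd : s.md (l + 1) = 2) (hnd : s.nd (l + 1) = m.G) {R : ℕ → ZMod p}
    {s' : Pool.Agent.Helper81.Tok2.Mach.St p}
    (h : Up m l s R s') {w : ℕ} (hw : w < p - 1) :
    Up m l s (addR (m.lo k m.G) (m.ln m.G)
      (fun o => sgz p (s.sg (l + 1)) * fZ m p k (s.qa (k + 1)) R w o) R)
      (stp m l (3 * w + 2) (stp m l (3 * w + 1) (stp m l (3 * w) s'))) := by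
  have hkl : k * (m.G + 2) = l := by
    rw [← hk]
    exact Nat.div_mul_cancel (Nat.dvd_of_mod_eq_zero hl)
  have hk1 : l + 1 ≤ (k + 1) * (m.G + 2) := by
    have : (k + 1) * (m.G + 2) = k * (m.G + 2) + (m.G + 2) := by ring
    omega
  set x := s.qa (k + 1) with hx
  set c : ZMod p := ((w + 1 : ℕ) : ZMod p) with hc
  -- the first operation
  set s1 : Pool.Agent.Helper81.Tok2.Mach.St p := ({ s' with
      R := scaR (m.cl k) m.wc c R
      qa := Function.update s'.qa k x
      ac := s'.ac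
      au := s'.au
      sa := s'.sa
      sl := s'.sl } :
    Pool.Agent.Helper81.Tok2.Mach.St p).call l 1 m.G 0 with hs1
  have e1 : m.op l (3 * w) s' = s1 := by
    unfold Pool.Agent.Helper81.Tok2.Mach.op
    rw [if_pos hl, hk]
    unfold Pool.Agent.Helper81.Tok2.Mach.opE
    rw [if_neg (by rw [(h.lev _ le_rfl).2.1]; omega),
      if_pos ⟨by rw [(h.lev _ le_rfl).1]; exact hmd, by rw [(h.lev _ le_rfl).2.1]; exact hnd,
        by omega⟩]
    unfold Pool.Agent.Helper81.Tok2.Mach.opZ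
    rw [if_pos (by omega), show 3 * w / 3 = w by omega, h.hR, (h.rest _ hk1).1]
  have u1 : Up m l s (scaR (m.cl k) m.wc c R) s1 := by
    refine (h.set (by omega : k * (m.G + 2) ≤ l) _ _ _ _ _ _ ?_).call _ _ _
    intro k' hk'
    exact ⟨Function.update_of_ne hk' _ _, rfl, rfl, rfl, rfl⟩
  have q1 : s1.qa k = x := by simp [hs1, Pool.Agent.Helper81.Tok2.Mach.St.call]
  have md1 : s1.md l = 1 := by simp [hs1, Pool.Agent.Helper81.Tok2.Mach.St.call]
  have nd1 : s1.nd l = m.G := by simp [hs1, Pool.Agent.Helper81.Tok2.Mach.St.call]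
  have sg1 : s1.sg l = 0 := by simp [hs1, Pool.Agent.Helper81.Tok2.Mach.St.call]
  set R1 := addR (m.cl k) m.wc (fun o => 1 * m.T p k x o) (scaR (m.cl k) m.wc c R) with hR1
  set s2 : Pool.Agent.Helper81.Tok2.Mach.St p := { s1 with R := R1 } with hs2
  have e2 : stp m l (3 * w) s' = s2 := by
    unfold stp
    rw [e1, ideal_top hl md1 nd1, hk, q1, sg1, u1.hR, hs2, hR1]
    rfl
  have u2 : Up m l s R1 s2 := ⟨rfl, u1.lev, u1.rest⟩
  -- the second operation
  set R3 := addR (m.cl (k + 1)) m.wc (fun o => sgz p (s.sg (l + 1)) * fZ m p k x R w o) R1 with hR3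
  set s3 : Pool.Agent.Helper81.Tok2.Mach.St p := ({ s2 with
      R := R3
      qa := s2.qa
      ac := s2.ac
      au := s2.au
      sa := s2.sa
      sl := s2.sl } :
      Pool.Agent.Helper81.Tok2.Mach.St p).call l 1 m.G 1 with hs3
  have hlo : m.lo k m.G = m.cl (k + 1) := by
    unfold Pool.Agent.Helper81.Tok2.Mach.lo
    rw [if_neg (lt_irrefl _)]
  have hln : m.ln m.G = m.wc := by
    unfold Pool.Agent.Helper81.Tok2.Mach.ln
    rw [if_neg (lt_irrefl _)]
  have e3 : m.op l (3 * w + 1) s2 = s3 := by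
    unfold Pool.Agent.Helper81.Tok2.Mach.op
    rw [if_pos hl, hk]
    unfold Pool.Agent.Helper81.Tok2.Mach.opE
    rw [if_neg (by rw [(u2.lev _ le_rfl).2.1]; omega),
      if_pos ⟨by rw [(u2.lev _ le_rfl).1]; exact hmd, by rw [(u2.lev _ le_rfl).2.1]; exact hnd,
        by omega⟩]
    unfold Pool.Agent.Helper81.Tok2.Mach.opZ
    rw [if_neg (by omega), if_pos (by omega), u2.hR, (u2.rest _ hk1).1, (u2.lev _ le_rfl).2.2,
      ← hx, hlo, hln]
    have hX : ∀ o, fhat p (m.nv m.G) (m.top x) o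
        (m.vars p m.G R1 fun o => R1 (m.cl k + o)) = fZ m p k x R w o := by
      intro o
      unfold fZ
      apply fhat_congr
      intro j hj
      rw [hR1]
      exact vars_load le_rfl k c _ R hj
    simp only [hX]
    rfl
  have u3 : Up m l s R3 s3 := by
    refine (u2.set (by omega : k * (m.G + 2) ≤ l) _ _ _ _ _ _ ?_).call _ _ _
    intro k' hk'
    exact ⟨rfl, rfl, rfl, rfl, rfl⟩
  have q3 : s3.qa k = x := q1
  have md3 : s3.md l = 1 := by simp [hs3, Pool.Agent.Helper81.Tok2.Mach.St.call]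
  have nd3 : s3.nd l = m.G := by simp [hs3, Pool.Agent.Helper81.Tok2.Mach.St.call]
  have sg3 : s3.sg l = 1 := by simp [hs3, Pool.Agent.Helper81.Tok2.Mach.St.call]
  set R4 := addR (m.cl k) m.wc (fun o => -1 * m.T p k x o) R3 with hR4
  set s4 : Pool.Agent.Helper81.Tok2.Mach.St p := { s3 with R := R4 } with hs4
  have e4 : stp m l (3 * w + 1) s2 = s4 := by
    unfold stp
    rw [e3, ideal_top hl md3 nd3, hk, q3, sg3, u3.hR, hs4, hR4]
    rfl
  have u4 : Up m l s R4 s4 := ⟨rfl, u3.lev, u3.rest⟩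
  -- the third operation
  set R5 := addR (m.cl (k + 1)) m.wc (fun o => sgz p (s.sg (l + 1)) * fZ m p k x R w o) R with hR5
  set s5 : Pool.Agent.Helper81.Tok2.Mach.St p := ({ s4 with
      R := R5
      qa := s4.qa
      ac := s4.ac
      au := s4.au
      sa := s4.sa
      sl := s4.sl } :
      Pool.Agent.Helper81.Tok2.Mach.St p).call l 0 0 0 with hs5
  have e5 : m.op l (3 * w + 2) s4 = s5 := by
    unfold Pool.Agent.Helper81.Tok2.Mach.op
    rw [if_pos hl, hk]
    unfold Pool.Agent.Helper81.Tok2.Mach.opE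
    rw [if_neg (by rw [(u4.lev _ le_rfl).2.1]; omega),
      if_pos ⟨by rw [(u4.lev _ le_rfl).1]; exact hmd, by rw [(u4.lev _ le_rfl).2.1]; exact hnd,
        by omega⟩]
    unfold Pool.Agent.Helper81.Tok2.Mach.opZ
    rw [if_neg (by omega), if_neg (by omega), show (3 * w + 2) / 3 = w by omega, u4.hR]
    have hRR : scaR (m.cl k) m.wc c⁻¹ R4 = R5 := by
      rw [hR4, hR3, hR1, hR5]
      exact net2 (cast_ne hw) _ _ R (fun j hj => cl_disj k j hj)
    rw [hRR, hs5]
  have u5 : Up m l s R5 s5 := by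
    refine (u4.set (by omega : k * (m.G + 2) ≤ l) _ _ _ _ _ _ ?_).call _ _ _
    intro k' hk'
    exact ⟨rfl, rfl, rfl, rfl, rfl⟩
  have e6 : stp m l (3 * w + 2) (stp m l (3 * w + 1) (stp m l (3 * w) s')) = s5 := by
    rw [e2, e4]
    unfold stp
    rw [e5, ideal_idle (by simp [hs5, Pool.Agent.Helper81.Tok2.Mach.St.call])]
  rw [e6, hlo, hln]
  exact u5

/-- All triples. -/
theorem roundsZ [Fact p.Prime] {l k : ℕ} (hl : l % (m.G + 2) = 0) (hk : l / (m.G + 2) = k)
    {s : Pool.Agent.Helper81.Tok2.Mach.St p}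
    (hmd : s.md (l + 1) = 2) (hnd : s.nd (l + 1) = m.G) : ∀ w ≤ p - 1,
    Up m l s (addR (m.lo k m.G) (m.ln m.G)
      (fun o => sgz p (s.sg (l + 1)) * ∑ w' ∈ range w, fZ m p k (s.qa (k + 1)) s.R w' o) s.R)
      (iter (stp m l) (3 * w) s) := by
  intro w
  induction w with
  | zero =>
    intro _
    have e : addR (m.lo k m.G) (m.ln m.G)
        (fun o => sgz p (s.sg (l + 1)) *
        ∑ w' ∈ range 0, fZ m p k (s.qa (k + 1)) s.R w' o) s.R = s.R := by
      rw [addR_congr (c' := fun _ => 0) (fun o _ => by simp)]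
      exact addR_zero _ _ _
    rw [e]
    exact Up.refl _ _
  | succ w ih =>
    intro hw
    have h1 := tripleZ hl hk hmd hnd (ih (by omega)) (w := w) (by omega)
    rw [addR_add] at h1
    have e : ∀ R' : ℕ → ZMod p, (∀ j < m.G * m.wn, R' j = s.R j) →
        (∀ o < m.wc, R' (m.cl k + o) = s.R (m.cl k + o)) →
        (fun o => sgz p (s.sg (l + 1)) * ∑ w' ∈ range w, fZ m p k (s.qa (k + 1)) s.R w' o +
        sgz p (s.sg (l + 1)) * fZ m p k (s.qa (k + 1)) R' w o) =
        fun o => sgz p (s.sg (l + 1)) *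
          ∑ w' ∈ range (w + 1), fZ m p k (s.qa (k + 1)) s.R w' o := by
      intro R' hR' hR''
      funext o
      rw [fZ_congr hR' hR'' w o, sum_range_succ]
      ring
    have hlo : m.lo k m.G = m.cl (k + 1) := by
      unfold Pool.Agent.Helper81.Tok2.Mach.lo
      rw [if_neg (lt_irrefl _)]
    have hln : m.ln m.G = m.wc := by
      unfold Pool.Agent.Helper81.Tok2.Mach.ln
      rw [if_neg (lt_irrefl _)]
    rw [e _ ?_ ?_] at h1
    · exact h1
    · intro j hj
      apply addR_of_not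
      rw [hlo]
      have := cl_ge (m := m) (k + 1)
      omega
    · intro o ho
      apply addR_of_not
      rw [hlo, hln]
      exact cl_disj k _ (by omega)

theorem idle {l : ℕ} (hl : l % (m.G + 2) = 0) {s : Pool.Agent.Helper81.Tok2.Mach.St p} {n₀ : ℕ}
    (hn : ¬ (s.md (l + 1) = 2 ∧ s.nd (l + 1) ≤ m.G) ∨
      (s.nd (l + 1) = m.G ∧ 3 * (p - 1) ≤ n₀)) {R : ℕ → ZMod p}
    {s' : Pool.Agent.Helper81.Tok2.Mach.St p} (h : Up m l s R s') : ∀ n : ℕ,
    Up m l s R (iter (fun j => stp m l (n₀ + j)) n s') := by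
  intro n
  induction n with
  | zero => exact h
  | succ n ih =>
    set s1 := iter (fun j => stp m l (n₀ + j)) n s' with hs1
    show Up m l s R (stp m l (n₀ + n) s1)
    have e1 : m.op l (n₀ + n) s1 = s1.call l 0 0 0 := by
      unfold Pool.Agent.Helper81.Tok2.Mach.op
      rw [if_pos hl]
      unfold Pool.Agent.Helper81.Tok2.Mach.opE
      rw [(ih.lev _ le_rfl).1, (ih.lev _ le_rfl).2.1]
      rcases hn with hn | hn
      · rw [if_neg (by intro h0; exact hn ⟨h0.1, by omega⟩),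
          if_neg (by intro h0; exact hn ⟨h0.1, by omega⟩)]
      · rw [if_neg (by omega), if_neg (by omega)]
    unfold stp
    rw [e1, ideal_idle (by simp [Pool.Agent.Helper81.Tok2.Mach.St.call])]
    exact ih.call _ _ _

theorem Up.agree {l : ℕ} {s : Pool.Agent.Helper81.Tok2.Mach.St p} {R : ℕ → ZMod p}
    {s' : Pool.Agent.Helper81.Tok2.Mach.St p}
    (h : Up m l s R s') : m.Agree (l + 1) s' { s with R := R } :=
  ⟨h.hR, h.lev, h.rest⟩

theorem nv_mono {i j : ℕ} (h : i ≤ j) : m.nv i ≤ m.nv j := by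
  unfold Pool.Agent.Helper81.Tok2.Mach.nv
  have := Nat.mul_le_mul_right m.wn h
  omega

end

/-- ELEV. -/
theorem ELEV (h1 : INNER_stmt) (h2 : SAV_stmt) : Pool.Agent.Helper81.Tok2.ELEV_stmt := by
  have hIN := h1
  have hSAV := h2
  clear h1 h2
  intro m p _ hm hd l hl s
  have e0 : (fun j s => m.ideal l (m.op l j s)) = stp (p := p) m l := rfl
  rw [e0]
  have hp2 : 2 ≤ p := (Fact.out : p.Prime).two_le
  have hb := hm.hb
  have hNG : m.nv m.G < p - 1 := by
    have h3 : 1 * m.nv m.G ≤ (2 ^ m.h + 1) * m.nv m.G :=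
      Nat.mul_le_mul_right _ (Nat.le_add_left _ _)
    have h4 : 1 * ((2 ^ m.h + 1) * m.nv m.G) ≤ m.b * ((2 ^ m.h + 1) * m.nv m.G) :=
      Nat.mul_le_mul_right _ hb
    omega
  have hnl : 0 < m.nl := Nat.mul_pos hb (Nat.succ_pos _)
  have e1 : m.cnt p l = 2 ^ (m.σ * (2 * m.b + 1)) * m.ny p := by
    unfold Pool.Agent.Helper81.Tok2.Mach.cnt
    rw [hl, ifz_zero]
  by_cases hn : s.md (l + 1) = 2 ∧ s.nd (l + 1) ≤ m.G
  · have e2 : m.ideal (l + 1) s = { s with
        R := addR (m.lo (l / (m.G + 2)) (s.nd (l + 1))) (m.ln (s.nd (l + 1))) (fun o =>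
          -(sgz p (s.sg (l + 1)) * m.P p (l / (m.G + 2)) (s.nd (l + 1))
            (s.qa (l / (m.G + 2) + 1)) s.R o)) s.R } := by
      show (if s.md (l + 1) = 2 ∧ _ then _ else _) = _
      rw [if_pos hn]
    rw [e2]
    set k := l / (m.G + 2) with hk
    by_cases hG : s.nd (l + 1) < m.G
    · have hN : m.nv (s.nd (l + 1)) < p - 1 := lt_of_le_of_lt (nv_mono (by omega)) hNG
      have h1 := (rounds hIN hSAV hnl hl hk.symm hn.1 hG hN (2 ^ (m.σ * (2 * m.b + 1)))).agree
      rw [e1, iter_mul]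
      have e3 : ∀ o, ∑ y ∈ range (2 ^ (m.σ * (2 * m.b + 1))), val m p k (s.nd (l + 1)) s.R y o =
          m.P p k (s.nd (l + 1)) (s.qa (k + 1)) s.R o := by
        intro o
        unfold Pool.Agent.Helper81.Tok2.Mach.P
        rw [if_pos hG]
        rfl
      simp only [e3] at h1
      exact h1
    · have hG' : s.nd (l + 1) = m.G := by omega
      have h1 := roundsZ hl hk.symm hn.1 hG' (p - 1) le_rfl
      have hcnt : 3 * (p - 1) ≤ m.cnt p l := by
        rw [e1]
        have h2 : 1 ≤ 2 ^ (m.σ * (2 * m.b + 1)) := Nat.one_le_two_pow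
        have h3 : 1 * m.ny p ≤ 2 ^ (m.σ * (2 * m.b + 1)) * m.ny p := Nat.mul_le_mul_right _ h2
        have h4 : m.ny p = 3 * (m.nl * (p - 1)) + 1 := rfl
        have h5 : 1 * (p - 1) ≤ m.nl * (p - 1) := Nat.mul_le_mul_right _ hnl
        omega
      obtain ⟨d, hd'⟩ := Nat.exists_eq_add_of_le hcnt
      rw [hd', iter_add]
      have h6 := idle hl (Or.inr ⟨hG', le_rfl⟩) h1 d
      have h7 := h6.agree
      have e3 : ∀ o, sgz p (s.sg (l + 1)) *
          ∑ w' ∈ range (p - 1), fZ m p k (s.qa (k + 1)) s.R w' o =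
          -(sgz p (s.sg (l + 1)) * m.P p k (s.nd (l + 1)) (s.qa (k + 1)) s.R o) := by
        intro o
        have := hIN m p (m.nv m.G) m.G o (m.top (s.qa (k + 1))) s.R
          (fun o => s.R (m.cl k + o)) (m.T p k (s.qa (k + 1))) hNG
        unfold fZ
        rw [this, hG']
        unfold Pool.Agent.Helper81.Tok2.Mach.P
        rw [if_neg (lt_irrefl _)]
        ring
      simp only [e3] at h7
      rw [← hG'] at h7
      exact h7
  · have e2 : m.ideal (l + 1) s = s := by
      show (if s.md (l + 1) = 2 ∧ _ then _ else if s.md (l + 1) = 1 ∧ _ then _ else _) = _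
      rw [if_neg hn, if_neg]
      rw [hl]
      omega
    rw [e2]
    have h1 := (idle (n₀ := 0) hl (Or.inl hn) (Up.refl l s) (m.cnt p l)).agree
    have e3 : (fun j => stp (p := p) m l (0 + j)) = stp m l := by
      funext j
      rw [Nat.zero_add]
    rw [e3] at h1
    exact h1

end Pool.Agent.Helper13.Tok2
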